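import Mathlib

set_option autoImplicit false

/-!
# `K_3`-good graphs: definitions and tools
-/

namespace Pool.Agent.Q295.KG

open Finset

/-- Every red/blue colouring of the edges of `K_N` (red graph `R`, blue graph its complement) has
a red triangle or a blue copy of `H`. -/
def Forces {V : Type} (H : SimpleGraph V) (N : ℕ) : Prop :=
  ∀ R : SimpleGraph (Fin N), R.CliqueFree 3 →
    ∃ f : V → Fin N, Function.Injective f ∧ ∀ u v, H.Adj u v → ¬ R.Adj (f u) (f v)

theorem Forces.mono {V : Type} {H : SimpleGraph V} {m n : ℕ} (h : Forces H m) (hmn : m ≤ n) :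
    Forces H n := by
  intro R hR
  obtain ⟨f, hf, hadj⟩ := h (R.comap (Fin.castLE hmn)) (by
    intro s hs
    refine hR (s.map (Fin.castLEEmb hmn)) ?_
    rw [SimpleGraph.is3Clique_iff] at hs ⊢
    obtain ⟨a, b, c, h1, h2, h3, rfl⟩ := hs
    refine ⟨_, _, _, h1, h2, h3, ?_⟩
    simp [Finset.map_insert])
  refine ⟨fun v => Fin.castLE hmn (f v), ?_, fun u v huv => hadj u v huv⟩
  intro u v huv
  exact hf (Fin.castLE_injective hmn huv)

/-- A vertex is at least in one of two lists. Connected graphs need `2n - 1` vertices. -/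
theorem not_forces_connected {n : ℕ} (G : SimpleGraph (Fin n)) (hG : G.Connected) (hn : 1 ≤ n) :
    ¬ Forces G (2 * n - 2) := by
  intro h
  let R : SimpleGraph (Fin (2 * n - 2)) :=
    { Adj := fun x y => ¬ (x.val < n - 1 ↔ y.val < n - 1)
      symm := ⟨fun x y h h' => h (by tauto)⟩
      loopless := ⟨fun x h => h Iff.rfl⟩ }
  have hR : R.CliqueFree 3 := by
    intro s hs
    rw [SimpleGraph.is3Clique_iff] at hs
    obtain ⟨a, b, c, h1, h2, h3, -⟩ := hs
    have h1' : ¬ (a.val < n - 1 ↔ b.val < n - 1) := h1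
    have h2' : ¬ (a.val < n - 1 ↔ c.val < n - 1) := h2
    have h3' : ¬ (b.val < n - 1 ↔ c.val < n - 1) := h3
    tauto
  obtain ⟨f, hf, hadj⟩ := h R hR
  have hside : ∀ u v : Fin n, ((f u).val < n - 1 ↔ (f v).val < n - 1) := by
    intro u v
    obtain ⟨p⟩ := hG.preconnected u v
    induction p with
    | nil => exact Iff.rfl
    | cons hadj' _ ih =>
      have h1 := hadj _ _ hadj'
      have h2 : _ := not_not.1 h1
      exact h2.trans ih
  by_cases h0 : (f ⟨0, hn⟩).val < n - 1
  · have h1 : (univ : Finset (Fin n)).card ≤ (range (n - 1)).card :=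
      card_le_card_of_injOn (fun u => (f u).val)
        (fun u _ => by
          simp only [coe_range, Set.mem_Iio]
          exact (hside u ⟨0, hn⟩).2 h0)
        (fun u _ v _ huv => hf (Fin.ext huv))
    rw [card_univ, Fintype.card_fin, card_range] at h1
    omega
  · have h1 : (univ : Finset (Fin n)).card ≤ (range (n - 1)).card :=
      card_le_card_of_injOn (fun u => (f u).val - (n - 1))
        (fun u _ => by
          simp only [coe_range, Set.mem_Iio]
          have h2 := (f u).isLt
          omega)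
        (fun u _ v _ huv => by
          have h2 : ¬ (f u).val < n - 1 := fun h => h0 ((hside u ⟨0, hn⟩).1 h)
          have h3 : ¬ (f v).val < n - 1 := fun h => h0 ((hside v ⟨0, hn⟩).1 h)
          simp only at huv
          exact hf (Fin.ext (by omega)))
    rw [card_univ, Fintype.card_fin, card_range] at h1
    omega

/-- Injections defined on a subset can be extended. -/
theorem extend_inj {m M : ℕ} (hmM : m ≤ M) (f : Fin m → Fin M) (s : Finset (Fin m))
    (hf : Set.InjOn f s) : ∃ g : Fin m → Fin M, Function.Injective g ∧ ∀ i ∈ s, g i = f i := by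
  classical
  have h1 : (s.image f).card = s.card := card_image_of_injOn hf
  have h2 : s.card ≤ m := by
    have := card_le_univ s
    rwa [Fintype.card_fin] at this
  obtain ⟨t, ht1, -, ht3⟩ := exists_subsuperset_card_eq (s := s.image f) (t := univ) (n := m)
    (subset_univ _) (by omega) (by simpa using hmM)
  obtain ⟨g, hg⟩ := Finset.exists_equiv_extend_of_card_eq (α := Fin m) (t := t)
    (by rw [Fintype.card_fin, ht3]) (s := s) (f := f) ht1 hf
  refine ⟨fun i => (g i : Fin M), ?_, hg⟩
  intro i j hij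
  exact g.injective (Subtype.ext hij)

/-- Among any three vertices of a triangle-free graph two are non-adjacent. -/
theorem pair_of_three {N : ℕ} (R : SimpleGraph (Fin N)) (hR : R.CliqueFree 3)
    (S : Finset (Fin N)) (hS : 3 ≤ S.card) : ∃ x ∈ S, ∃ y ∈ S, x ≠ y ∧ ¬ R.Adj x y := by
  classical
  obtain ⟨T, hTS, hT⟩ := exists_subset_card_eq hS
  rw [card_eq_three] at hT
  obtain ⟨x, y, z, hxy, hxz, hyz, rfl⟩ := hT
  by_contra hcon
  push Not at hcon
  have hx := hTS (mem_insert_self x _)
  have hy := hTS (mem_insert_of_mem (mem_insert_self y _))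
  have hz : z ∈ S := hTS (by simp)
  exact hR {x, y, z} (SimpleGraph.is3Clique_triple_iff.2
    ⟨hcon x hx y hy hxy, hcon x hx z hz hxz, hcon y hy z hz hyz⟩)

/-- `r(K_3,K_3) ≤ 6`. -/
theorem triple_of_six {N : ℕ} (R : SimpleGraph (Fin N)) (hR : R.CliqueFree 3)
    (S : Finset (Fin N)) (hS : 6 ≤ S.card) :
    ∃ x ∈ S, ∃ y ∈ S, ∃ z ∈ S, x ≠ y ∧ x ≠ z ∧ y ≠ z ∧
      ¬ R.Adj x y ∧ ¬ R.Adj x z ∧ ¬ R.Adj y z := by
  classical
  obtain ⟨v, hv⟩ : S.Nonempty := card_pos.1 (by omega)
  have h1 : ((S.erase v).filter (fun w => R.Adj v w)).card +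
      ((S.erase v).filter (fun w => ¬ R.Adj v w)).card = (S.erase v).card :=
    card_filter_add_card_filter_not _
  rw [card_erase_of_mem hv] at h1
  by_cases h2 : 3 ≤ ((S.erase v).filter (fun w => R.Adj v w)).card
  · obtain ⟨T, hTS, hT⟩ := exists_subset_card_eq h2
    rw [card_eq_three] at hT
    obtain ⟨x, y, z, hxy, hxz, hyz, rfl⟩ := hT
    have hx := mem_filter.1 (hTS (mem_insert_self x _))
    have hy := mem_filter.1 (hTS (mem_insert_of_mem (mem_insert_self y _)))
    have hz := mem_filter.1 (hTS (show z ∈ ({x, y, z} : Finset _) by simp))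
    refine ⟨x, mem_of_mem_erase hx.1, y, mem_of_mem_erase hy.1, z, mem_of_mem_erase hz.1,
      hxy, hxz, hyz, ?_, ?_, ?_⟩
    · exact fun h => hR _ (SimpleGraph.is3Clique_triple_iff.2 ⟨hx.2, hy.2, h⟩)
    · exact fun h => hR _ (SimpleGraph.is3Clique_triple_iff.2 ⟨hx.2, hz.2, h⟩)
    · exact fun h => hR _ (SimpleGraph.is3Clique_triple_iff.2 ⟨hy.2, hz.2, h⟩)
  · obtain ⟨x, hx, y, hy, hxy, hadj⟩ := pair_of_three R hR
      ((S.erase v).filter (fun w => ¬ R.Adj v w)) (by omega)
    rw [mem_filter, mem_erase] at hx hy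
    exact ⟨v, hv, x, hx.1.2, y, hy.1.2, hx.1.1.symm, hy.1.1.symm, hxy, hx.2, hy.2, hadj⟩

/-- A triangle-free graph on `2m+1` vertices with `m ≥ 3` is not `m`-regular. -/
theorem not_regular {m : ℕ} (hm : 3 ≤ m) (R : SimpleGraph (Fin (2 * m + 1)))
    [DecidableRel R.Adj] (hR : R.CliqueFree 3) (hreg : ∀ v, (univ.filter (R.Adj v)).card = m) :
    False := by
  classical
  have tri : ∀ a b c, R.Adj a b → R.Adj b c → ¬ R.Adj a c := fun a b c h1 h2 h3 =>
    hR _ (SimpleGraph.is3Clique_triple_iff.2 ⟨h1, h3, h2⟩)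
  let nb : Fin (2 * m + 1) → Finset (Fin (2 * m + 1)) := fun v => univ.filter (R.Adj v)
  have hnb : ∀ v w, w ∈ nb v ↔ R.Adj v w := fun v w => by simp [nb]
  let u : Fin (2 * m + 1) := 0
  obtain ⟨v, hv⟩ : (nb u).Nonempty := card_pos.1 (by rw [hreg u]; omega)
  rw [hnb] at hv
  have hdisj : Disjoint (nb u) (nb v) := by
    rw [disjoint_left]
    intro x hx hx'
    rw [hnb] at hx hx'
    exact tri u v x hv hx' hx
  have hcard : (nb u ∪ nb v).card = 2 * m := by
    rw [card_union_of_disjoint hdisj, hreg u, hreg v]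
    ring
  have hcompl : (univ \ (nb u ∪ nb v)).card = 1 := by
    rw [card_sdiff_of_subset (subset_univ _), card_univ, Fintype.card_fin, hcard]
    omega
  obtain ⟨w, hw⟩ := card_eq_one.1 hcompl
  have hwmem : ∀ x, x ≠ w → x ∈ nb u ∪ nb v := by
    intro x hx
    by_contra hcon
    have : x ∈ univ \ (nb u ∪ nb v) := mem_sdiff.2 ⟨mem_univ _, hcon⟩
    rw [hw, mem_singleton] at this
    exact hx this
  have hwnot : w ∉ nb u ∪ nb v := by
    have : w ∈ univ \ (nb u ∪ nb v) := by rw [hw]; exact mem_singleton_self w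
    exact (mem_sdiff.1 this).2
  have hwu : ¬ R.Adj u w := fun h => hwnot (mem_union_left _ ((hnb u w).2 h))
  have hwv : ¬ R.Adj v w := fun h => hwnot (mem_union_right _ ((hnb v w).2 h))
  have hAB : (nb w ∩ nb u).card + (nb w ∩ nb v).card = m := by
    rw [← card_union_of_disjoint (disjoint_of_subset_left inter_subset_right
      (disjoint_of_subset_right inter_subset_right hdisj)), ← inter_union_distrib_left,
      inter_eq_left.2 ?_, hreg w]
    intro x hx
    refine hwmem x ?_
    rintro rfl
    rw [hnb] at hx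
    exact hx.ne rfl
  have key : ∀ a b : Fin (2 * m + 1), R.Adj a b → (∀ x, x ≠ w → x ∈ nb a ∪ nb b) →
      (nb w ∩ nb a).Nonempty → (nb w ∩ nb b).card ≤ 1 := by
    intro a b hab hall ⟨x, hx⟩
    rw [mem_inter, hnb, hnb] at hx
    have hsub : nb x ⊆ insert w (nb b \ (nb w ∩ nb b)) := by
      intro y hy
      rw [hnb] at hy
      rw [mem_insert]
      by_cases hyw : y = w
      · exact Or.inl hyw
      · right
        have h1 := hall y hyw
        rw [mem_union, hnb, hnb] at h1
        have h2 : ¬ R.Adj a y := tri a x y hx.2 hy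
        have h3 : R.Adj b y := h1.resolve_left h2
        rw [mem_sdiff, mem_inter, hnb, hnb]
        exact ⟨h3, fun h4 => tri w x y hx.1 hy h4.1⟩
    have h1 := card_le_card hsub
    have h2 := card_insert_le w (nb b \ (nb w ∩ nb b))
    rw [card_sdiff_of_subset inter_subset_right] at h2
    have h3 : (nb x).card = m := hreg x
    have h4 : (nb b).card = m := hreg b
    have h5 : (nb w ∩ nb b).card ≤ (nb b).card := card_le_card inter_subset_right
    omega
  have hA : (nb w ∩ nb u).Nonempty := by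
    by_contra hcon
    rw [not_nonempty_iff_eq_empty] at hcon
    rw [hcon, card_empty, zero_add] at hAB
    have h1 : nb w ∩ nb v = nb v :=
      eq_of_subset_of_card_le inter_subset_right (by rw [hAB]; exact (hreg v).le)
    have h2 : u ∈ nb v := (hnb v u).2 hv.symm
    rw [← h1, mem_inter, hnb] at h2
    exact hwu h2.1.symm
  have hB : (nb w ∩ nb v).Nonempty := by
    by_contra hcon
    rw [not_nonempty_iff_eq_empty] at hcon
    rw [hcon, card_empty, add_zero] at hAB
    have h1 : nb w ∩ nb u = nb u :=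
      eq_of_subset_of_card_le inter_subset_right (by rw [hAB]; exact (hreg u).le)
    have h2 : v ∈ nb u := (hnb u v).2 hv
    rw [← h1, mem_inter, hnb] at h2
    exact hwv h2.1.symm
  have h1 := key u v hv hwmem hA
  have h2 := key v u hv.symm (fun x hx => by rw [union_comm]; exact hwmem x hx) hB
  omega

/-- The join of one vertex with `H`. -/
def cone {m : ℕ} (H : SimpleGraph (Fin m)) : SimpleGraph (Fin (m + 1)) where
  Adj i j := i ≠ j ∧ (i = 0 ∨ j = 0 ∨ ∃ a b, i = Fin.succ a ∧ j = Fin.succ b ∧ H.Adj a b)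
  symm := ⟨fun i j h => ⟨h.1.symm, by
    rcases h.2 with h | h | ⟨a, b, h1, h2, h3⟩
    · exact Or.inr (Or.inl h)
    · exact Or.inl h
    · exact Or.inr (Or.inr ⟨b, a, h2, h1, h3.symm⟩)⟩⟩
  loopless := ⟨fun i h => h.1 rfl⟩

theorem connected_of_dominating {n : ℕ} (G : SimpleGraph (Fin n)) (o : Fin n)
    (h : ∀ v, v ≠ o → G.Adj o v) : G.Connected := by
  have hr : ∀ v, G.Reachable o v := by
    intro v
    by_cases hv : v = o
    · rw [hv]
    · exact (h v hv).reachable
  exact { preconnected := fun u v => (hr u).symm.trans (hr v)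
          nonempty := ⟨o⟩ }

theorem cone_connected {m : ℕ} (H : SimpleGraph (Fin m)) : (cone H).Connected :=
  connected_of_dominating _ 0 (fun _ hv => ⟨hv.symm, Or.inl rfl⟩)

theorem cone_forces {m : ℕ} (hm : 3 ≤ m) (H : SimpleGraph (Fin m)) (h : Forces H (m + 1)) :
    Forces (cone H) (2 * m + 1) := by
  classical
  intro R hR
  by_cases hA : ∃ v, m + 1 ≤ (univ.filter (R.Adj v)).card
  · obtain ⟨v, hv⟩ := hA
    obtain ⟨T, hTS, hT⟩ := exists_subset_card_eq hv
    have e := T.equivFinOfCardEq hT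
    refine ⟨fun i => (e.symm i : Fin (2 * m + 1)), ?_, ?_⟩
    · intro i j hij
      exact e.symm.injective (Subtype.ext hij)
    · intro i j _ hadj
      have h1 := (mem_filter.1 (hTS (e.symm i).2)).2
      have h2 := (mem_filter.1 (hTS (e.symm j).2)).2
      exact hR _ (SimpleGraph.is3Clique_triple_iff.2 ⟨h1, h2, hadj⟩)
  by_cases hB : ∃ v, m + 1 ≤ ((univ.erase v).filter (fun w => ¬ R.Adj v w)).card
  · obtain ⟨v, hv⟩ := hB
    obtain ⟨T, hTS, hT⟩ := exists_subset_card_eq hv
    have e := T.equivFinOfCardEq hT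
    let g : Fin (m + 1) → Fin (2 * m + 1) := fun i => (e.symm i : Fin (2 * m + 1))
    have hg : Function.Injective g := by
      intro i j hij
      exact e.symm.injective (Subtype.ext hij)
    have hgT : ∀ i, g i ≠ v ∧ ¬ R.Adj v (g i) := by
      intro i
      have h1 := mem_filter.1 (hTS (e.symm i).2)
      exact ⟨(mem_erase.1 h1.1).1, h1.2⟩
    obtain ⟨f, hf, hadj⟩ := h (R.comap g) (by
      intro s hs
      refine hR (s.map ⟨g, hg⟩) ?_
      rw [SimpleGraph.is3Clique_iff] at hs ⊢
      obtain ⟨a, b, c, h1, h2, h3, rfl⟩ := hs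
      refine ⟨_, _, _, h1, h2, h3, ?_⟩
      simp [Finset.map_insert])
    refine ⟨Fin.cons v (fun a => g (f a)), ?_, ?_⟩
    · rw [Fin.cons_injective_iff]
      refine ⟨?_, fun a b hab => hf (hg hab)⟩
      rintro ⟨a, ha⟩
      exact (hgT (f a)).1 ha
    · rintro i j ⟨hij, hij'⟩
      rcases hij' with rfl | rfl | ⟨a, b, rfl, rfl, hab⟩
      · obtain ⟨b, rfl⟩ := Fin.exists_succ_eq.2 hij.symm
        simp only [Fin.cons_zero, Fin.cons_succ]
        exact (hgT (f b)).2
      · obtain ⟨b, rfl⟩ := Fin.exists_succ_eq.2 hij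
        simp only [Fin.cons_zero, Fin.cons_succ]
        exact fun h => (hgT (f b)).2 h.symm
      · simp only [Fin.cons_succ]
        exact hadj a b hab
  exfalso
  push Not at hA hB
  refine not_regular hm R hR ?_
  intro v
  have h1 := hA v
  have h2 := hB v
  have h3 : (univ.filter (R.Adj v)) = ((univ.erase v).filter (fun w => R.Adj v w)) := by
    ext w
    simp only [mem_filter, mem_univ, true_and, mem_erase]
    constructor
    · intro h
      exact ⟨⟨h.ne', trivial⟩, h⟩
    · intro h
      exact h.2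
  have h4 : ((univ.erase v).filter (fun w => R.Adj v w)).card +
      ((univ.erase v).filter (fun w => ¬ R.Adj v w)).card = (univ.erase v).card :=
    card_filter_add_card_filter_not _
  rw [card_erase_of_mem (mem_univ _), card_univ, Fintype.card_fin] at h4
  rw [h3] at h1 ⊢
  omega

/-- Twice the number of edges is the sum of the degrees. -/
theorem two_mul_ncard {n : ℕ} (G : SimpleGraph (Fin n)) [DecidableRel G.Adj] :
    2 * G.edgeSet.ncard = ∑ v, (univ.filter (G.Adj v)).card := by
  classical
  have h1 := G.sum_degrees_eq_twice_card_edges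
  have h4 : G.edgeSet.ncard = G.edgeFinset.card := by
    rw [← SimpleGraph.coe_edgeFinset, Set.ncard_coe_finset]
  rw [h4, ← h1]
  refine sum_congr rfl ?_
  intro v _
  rw [← SimpleGraph.card_neighborFinset_eq_degree]
  congr 1
  ext w
  simp

theorem cone_edges {m : ℕ} (H : SimpleGraph (Fin m)) :
    m + H.edgeSet.ncard ≤ (cone H).edgeSet.ncard := by
  classical
  have h1 := two_mul_ncard (cone H)
  have h2 := two_mul_ncard H
  rw [Fin.sum_univ_succ] at h1
  have h3 : m ≤ (univ.filter ((cone H).Adj 0)).card := by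
    have hm : (univ.map (Fin.succEmb m)).card = m := by simp
    refine hm.symm.le.trans (card_le_card ?_)
    intro x hx
    rw [mem_map] at hx
    obtain ⟨a, -, rfl⟩ := hx
    simp only [mem_filter, mem_univ, true_and]
    exact ⟨(Fin.succ_ne_zero a).symm, Or.inl rfl⟩
  have h4 : ∀ a : Fin m, (univ.filter (H.Adj a)).card + 1 ≤
      (univ.filter ((cone H).Adj a.succ)).card := by
    intro a
    have h5 : (insert (0 : Fin (m + 1)) ((univ.filter (H.Adj a)).map (Fin.succEmb m))).card =
        (univ.filter (H.Adj a)).card + 1 := by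
      rw [card_insert_of_notMem, card_map]
      rw [mem_map]
      rintro ⟨b, -, hb⟩
      exact Fin.succ_ne_zero b hb
    rw [← h5]
    refine card_le_card ?_
    intro x hx
    rw [mem_insert, mem_map] at hx
    simp only [mem_filter, mem_univ, true_and]
    rcases hx with rfl | ⟨b, hb, rfl⟩
    · exact ⟨Fin.succ_ne_zero a, Or.inr (Or.inl rfl)⟩
    · have hab : H.Adj a b := (mem_filter.1 hb).2
      refine ⟨?_, Or.inr (Or.inr ⟨a, b, rfl, rfl, hab⟩)⟩
      intro h
      exact hab.ne (Fin.succ_injective _ h)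
  have h5 : ∑ a : Fin m, ((univ.filter (H.Adj a)).card + 1) ≤
      ∑ a : Fin m, (univ.filter ((cone H).Adj a.succ)).card := sum_le_sum (fun a _ => h4 a)
  rw [sum_add_distrib, sum_const, card_univ, Fintype.card_fin, smul_eq_mul, mul_one] at h5
  omega

end Pool.Agent.Q295.KG
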